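import Pool.Agent.H71.AL.Targets

/-!
# Board `alv_modules`, row FRE: the group acts freely inside a component
-/

set_option autoImplicit false

open Set
open Pool.Agent.AL

namespace Pool.Agent.H33.ALV

section

variable {ι : Type} {G : ι → ℝ → ℝ}

theorem fre_surj (hG : Gp rl G) (i : ι) : Function.Surjective (G i) := fun x => by
  obtain ⟨j, -, h⟩ := hG.inv i
  exact ⟨G j x, h x⟩

theorem fre_cont (hG : Gp rl G) (i : ι) : Continuous (G i) := by
  rcases hG.mono i with h | h
  · have h1 : StrictMono (G i) := fun a b hab => h a b hab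
    exact h1.monotone.continuous_of_surjective (fre_surj hG i)
  · have h1 : StrictMono (fun x => - G i x) := fun a b hab => neg_lt_neg (h a b hab)
    have h2 : Function.Surjective (fun x => - G i x) := fun x => by
      obtain ⟨y, hy⟩ := fre_surj hG i (-x)
      exact ⟨y, by show - G i y = x; rw [hy, neg_neg]⟩
    have h3 := continuous_neg.comp (h1.monotone.continuous_of_surjective h2)
    exact h3.congr fun x => neg_neg _

theorem fre_not {x y z : ℝ} (h : SC G x y) (hz : z ∈ uIcc x y) : ¬ E1 rl G z := fun h1 =>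
  h z hz (subset_closure (Or.inl h1))

/-- an increasing map with the fixed point `x` which moves `y < x` to the right -/
theorem fre_left {x y : ℝ} (h : SC G x y) (i : ι) (hi : Inc rl (G i)) (hx : G i x = x)
    (hyx : y < x) (hy : y < G i y) : False := by
  have h1 : ∀ n : ℕ, (G i)^[n] y < x := by
    intro n
    induction n with
    | zero => exact hyx
    | succ n ih =>
      rw [Function.iterate_succ_apply', ← hx]
      exact hi _ _ ih
  have h2 : StrictMono fun n : ℕ => (G i)^[n] y := by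
    refine strictMono_nat_of_lt_succ fun n => ?_
    induction n with
    | zero => exact hy
    | succ n ih =>
      show (G i)^[n + 1] y < (G i)^[n + 1 + 1] y
      rw [Function.iterate_succ_apply', Function.iterate_succ_apply' (G i) (n + 1)]
      exact hi _ _ ih
  have hne : (range fun n : ℕ => (G i)^[n] y).Nonempty := ⟨_, 0, rfl⟩
  have hb : BddAbove (range fun n : ℕ => (G i)^[n] y) := ⟨x, by
    rintro _ ⟨n, rfl⟩
    exact (h1 n).le⟩
  obtain ⟨s, hs⟩ : ∃ s, IsLUB (range fun n : ℕ => (G i)^[n] y) s := ⟨_, isLUB_csSup hne hb⟩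
  have h3 : ∀ n : ℕ, (G i)^[n] y < s := fun n =>
    lt_of_lt_of_le (h2 (Nat.lt_succ_self n)) (hs.1 ⟨n + 1, rfl⟩)
  have h4 : s ≤ x := hs.2 (by
    rintro _ ⟨n, rfl⟩
    exact (h1 n).le)
  have h5 : y < s := h3 0
  refine fre_not h (z := s) (mem_uIcc.2 (Or.inr ⟨h5.le, h4⟩)) (Or.inl ⟨i, y, hi, Or.inl
    ⟨h5, h3, fun z hz => ?_⟩⟩)
  obtain ⟨_, ⟨n, rfl⟩, hn, -⟩ := hs.exists_between hz
  exact ⟨n, hn⟩

/-- an increasing map with the fixed point `x` which moves `y > x` to the left -/
theorem fre_right {x y : ℝ} (h : SC G x y) (i : ι) (hi : Inc rl (G i)) (hx : G i x = x)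
    (hyx : x < y) (hy : G i y < y) : False := by
  have h1 : ∀ n : ℕ, x < (G i)^[n] y := by
    intro n
    induction n with
    | zero => exact hyx
    | succ n ih =>
      rw [Function.iterate_succ_apply', ← hx]
      exact hi _ _ ih
  have h2 : StrictAnti fun n : ℕ => (G i)^[n] y := by
    refine strictAnti_nat_of_succ_lt fun n => ?_
    induction n with
    | zero => exact hy
    | succ n ih =>
      show (G i)^[n + 1 + 1] y < (G i)^[n + 1] y
      have h5 := hi _ _ ih
      rw [← Function.iterate_succ_apply' (G i) (n + 1), ← Function.iterate_succ_apply' (G i) n]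
        at h5
      exact h5
  have hne : (range fun n : ℕ => (G i)^[n] y).Nonempty := ⟨_, 0, rfl⟩
  have hb : BddBelow (range fun n : ℕ => (G i)^[n] y) := ⟨x, by
    rintro _ ⟨n, rfl⟩
    exact (h1 n).le⟩
  obtain ⟨s, hs⟩ : ∃ s, IsGLB (range fun n : ℕ => (G i)^[n] y) s := ⟨_, isGLB_csInf hne hb⟩
  have h3 : ∀ n : ℕ, s < (G i)^[n] y := fun n =>
    lt_of_le_of_lt (hs.1 ⟨n + 1, rfl⟩) (h2 (Nat.lt_succ_self n))
  have h4 : x ≤ s := hs.2 (by
    rintro _ ⟨n, rfl⟩
    exact (h1 n).le)
  have h5 : s < y := h3 0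
  refine fre_not h (z := s) (mem_uIcc.2 (Or.inl ⟨h4, h5.le⟩)) (Or.inl ⟨i, y, hi, Or.inr
    ⟨h5, h3, fun z hz => ?_⟩⟩)
  obtain ⟨_, ⟨n, rfl⟩, -, hn⟩ := hs.exists_between hz
  exact ⟨n, hn⟩

theorem fre_fix (hG : Gp rl G) {x y : ℝ} (h : SC G x y) (i : ι) (hx : G i x = x) : G i y = y := by
  have hi : Inc rl (G i) := by
    rcases hG.mono i with h1 | h1
    · exact h1
    · exact (fre_not h left_mem_uIcc (Or.inr ⟨i, h1, hx⟩)).elim
  obtain ⟨j, hj1, hj2⟩ := hG.inv i
  have hjx : G j x = x := by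
    have := hj1 x
    rwa [hx] at this
  have hj : Inc rl (G j) := by
    rcases hG.mono j with h1 | h1
    · exact h1
    · exact (fre_not h left_mem_uIcc (Or.inr ⟨j, h1, hjx⟩)).elim
  by_contra hy
  rcases lt_or_gt_of_ne hy with h1 | h1
  · have h2 : y < G j y := by
      have := hj _ _ h1
      rwa [hj1] at this
    rcases lt_trichotomy y x with h3 | h3 | h3
    · exact fre_left h j hj hjx h3 h2
    · rw [h3, hx] at h1
      exact lt_irrefl _ h1
    · exact fre_right h i hi hx h3 h1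
  · have h2 : G j y < y := by
      have := hj _ _ h1
      rwa [hj1] at this
    rcases lt_trichotomy y x with h3 | h3 | h3
    · exact fre_left h i hi hx h3 h1
    · rw [h3, hx] at h1
      exact lt_irrefl _ h1
    · exact fre_right h j hj hjx h3 h2

theorem fre_ivt (hG : Gp rl G) (i : ι) {x y : ℝ}
    (h : (G i x - x ≤ 0 ∧ 0 ≤ G i y - y) ∨ (G i y - y ≤ 0 ∧ 0 ≤ G i x - x)) :
    ∃ c ∈ uIcc x y, G i c = c := by
  have h1 : ContinuousOn (fun t => G i t - t) (uIcc x y) :=
    ((fre_cont hG i).sub continuous_id).continuousOn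
  obtain ⟨c, hc, hc0⟩ := intermediate_value_uIcc h1 (mem_uIcc.2 h)
  exact ⟨c, hc, sub_eq_zero.1 hc0⟩

theorem fre_sub {x y c : ℝ} (h : SC G x y) (hc : c ∈ uIcc x y) : SC G c x := fun z hz =>
  h z (uIcc_subset_uIcc hc left_mem_uIcc hz)

theorem pf_FRE : T_FRE := by
  intro ι G hG x y h i
  refine ⟨fre_fix hG h i, fun h1 => ?_, fun h1 => ?_, fun h1 => ?_⟩
  · by_contra h2
    push Not at h2
    obtain ⟨c, hc, hcc⟩ := fre_ivt hG i (x := x) (y := y)
      (Or.inr ⟨sub_nonpos.2 h2, sub_nonneg.2 h1.le⟩)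
    rw [fre_fix hG (fre_sub h hc) i hcc] at h1
    exact lt_irrefl _ h1
  · by_contra h2
    push Not at h2
    obtain ⟨c, hc, hcc⟩ := fre_ivt hG i (x := x) (y := y)
      (Or.inl ⟨sub_nonpos.2 h1.le, sub_nonneg.2 h2⟩)
    rw [fre_fix hG (fre_sub h hc) i hcc] at h1
    exact lt_irrefl _ h1
  · rcases hG.mono i with h2 | h2
    · exact h2
    · exfalso
      have h3 : ∃ c ∈ uIcc x (G i x), G i c = c := by
        rcases le_total x (G i x) with h4 | h4
        · refine fre_ivt hG i (Or.inr ⟨?_, sub_nonneg.2 h4⟩)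
          rcases h4.eq_or_lt with h5 | h5
          · rw [← h5, ← h5, sub_self]
          · exact sub_nonpos.2 (h2 _ _ h5).le
        · refine fre_ivt hG i (Or.inl ⟨sub_nonpos.2 h4, ?_⟩)
          rcases h4.eq_or_lt with h5 | h5
          · rw [h5, h5, sub_self]
          · exact sub_nonneg.2 (h2 _ _ h5).le
      obtain ⟨c, hc, hcc⟩ := h3
      exact fre_not h1 hc (Or.inr ⟨i, h2, hcc⟩)

end

end Pool.Agent.H33.ALV
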